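import Pool.Agent.Helper81K1.SH.Mom

set_option autoImplicit false

/-!
# Additive characters
-/

namespace Pool.Agent.Helper81K1.SH

open Finset
open Pool.Agent.Helper81K1.MP
open Pool.Agent.Helper523.UF (e e_norm e_add e_neg e_int e_nat e_zero e_nat_mul)

/-- the moments of the dual polynomials -/
theorem PP_mom1 (δ : ℝ) (hδ : 0 < δ) : ∃ K : ℝ, 0 ≤ K ∧ ∀ (N T : ℕ) (th : ℝ) (γ : ℕ → ℂ), 1 ≤ N →
    T ≤ N ^ 2 → 0 ≤ th → th < 1 → ‖γ 0‖ ≤ 1 →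
    (∀ T0, 1 ≤ T0 → T0 ≤ T → ∀ r,
      ∑ t ∈ Ico T0 (2 * T0), ‖PP 1 th γ (⌊2 * ((1 : ℕ) : ℝ) * T0 / (Real.pi * N)⌋₊ + 1) r t‖ ^ 2 ≤
      K * (N : ℝ) ^ (2 * (δ / 10)) * T0 * ((T0 : ℝ) / N + 2)) ∧
    (∀ T0, 1 ≤ T0 → T0 ≤ T → ∀ r,
      ∑ t ∈ Ico T0 (2 * T0), ‖PP 1 th γ (⌊2 * ((1 : ℕ) : ℝ) * T0 / (Real.pi * N)⌋₊ + 1) r t‖ ^ 4 ≤
      K * (N : ℝ) ^ (2 * (δ / 10)) * T0 * ((T0 : ℝ) / N + 2) ^ 2) := by
  obtain ⟨C, hC1, hC⟩ := PP4 (δ / 60) (by positivity)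
  refine ⟨C, by linarith, ?_⟩
  intro N T th γ hN hTN hth0 hth1 hγ
  have hN1 : (1 : ℝ) ≤ N := by exact_mod_cast hN
  have hN0 : (0 : ℝ) < N := by linarith
  have key : ∀ T0, 1 ≤ T0 → T0 ≤ T → ∀ r, ∃ M : ℝ, 0 ≤ M ∧ M ≤ (T0 : ℝ) / N + 2 ∧
      ∑ t ∈ Ico T0 (2 * T0), ‖PP 1 th γ (⌊2 * ((1 : ℕ) : ℝ) * T0 / (Real.pi * N)⌋₊ + 1) r t‖ ^ 4 ≤
        C * (N : ℝ) ^ (2 * (δ / 10)) * (M ^ 2 * T0) := by
    intro T0 hT0 hT0T r
    have hT01 : (1 : ℝ) ≤ T0 := by exact_mod_cast hT0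
    obtain ⟨M', hM'⟩ : ∃ M' : ℕ, M' = ⌊2 * ((1 : ℕ) : ℝ) * T0 / (Real.pi * N)⌋₊ + 1 := ⟨_, rfl⟩
    rw [← hM']
    have hT0N : (T0 : ℝ) ≤ (N : ℝ) ^ 2 := by exact_mod_cast hT0T.trans hTN
    obtain ⟨hb1, hb2, hb3, hb4⟩ := length_bd N 1 T0 hN le_rfl hT0 (by
      push_cast
      linarith) M' hM'
    have h1 := hC M' T0 r th γ (by omega) hT0 hb2 hb3 hth0 hth1 hγ
    refine ⟨M', Nat.cast_nonneg _, ?_, ?_⟩
    · push_cast at hb4
      rw [div_one] at hb4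
      linarith
    · refine h1.trans ?_
      apply mul_le_mul_of_nonneg_right _ (by positivity)
      apply mul_le_mul_of_nonneg_left _ (by linarith)
      calc (T0 : ℝ) ^ (6 * (δ / 60)) ≤ ((N : ℝ) ^ 2) ^ (6 * (δ / 60)) :=
            Real.rpow_le_rpow (by linarith) hT0N (by positivity)
        _ = (N : ℝ) ^ (2 * (δ / 10)) := by
            rw [← Real.rpow_natCast, ← Real.rpow_mul hN0.le]
            congr 1
            push_cast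
            ring
  have hA1 : 1 ≤ (N : ℝ) ^ (2 * (δ / 10)) := Real.one_le_rpow hN1 (by positivity)
  constructor
  · intro T0 hT0 hT0T r
    have hT01 : (1 : ℝ) ≤ T0 := by exact_mod_cast hT0
    obtain ⟨M, hM0, hM1, hM2⟩ := key T0 hT0 hT0T r
    obtain ⟨S2, hS2⟩ : ∃ S2 : ℝ, S2 = ∑ t ∈ Ico T0 (2 * T0),
      ‖PP 1 th γ (⌊2 * ((1 : ℕ) : ℝ) * T0 / (Real.pi * N)⌋₊ + 1) r t‖ ^ 2 := ⟨_, rfl⟩
    rw [← hS2]
    have hS0 : 0 ≤ S2 := by rw [hS2]; positivity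
    have h1 : S2 ^ 2 ≤ T0 * ∑ t ∈ Ico T0 (2 * T0),
        ‖PP 1 th γ (⌊2 * ((1 : ℕ) : ℝ) * T0 / (Real.pi * N)⌋₊ + 1) r t‖ ^ 4 := by
      have h2 := sq_sum_le_card_mul_sum_sq (s := Ico T0 (2 * T0))
        (f := fun t : ℕ => ‖PP 1 th γ (⌊2 * ((1 : ℕ) : ℝ) * T0 / (Real.pi * N)⌋₊ + 1) r t‖ ^ 2)
      rw [← hS2, Nat.card_Ico] at h2
      have e1 : 2 * T0 - T0 = T0 := by omega
      rw [e1] at h2
      refine h2.trans (le_of_eq ?_)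
      congr 1
      apply sum_congr rfl
      intro t _
      ring
    have h2 : S2 ^ 2 ≤ (C * (N : ℝ) ^ (2 * (δ / 10)) * T0 * M) ^ 2 := by
      refine h1.trans ?_
      have hA : 1 ≤ C * (N : ℝ) ^ (2 * (δ / 10)) := one_le_mul_of_one_le_of_one_le hC1 hA1
      obtain ⟨A, hAd⟩ : ∃ A : ℝ, A = C * (N : ℝ) ^ (2 * (δ / 10)) := ⟨_, rfl⟩
      rw [← hAd] at hA hM2 ⊢
      calc (T0 : ℝ) * _ ≤ T0 * (A * (M ^ 2 * T0)) := mul_le_mul_of_nonneg_left hM2 (by linarith)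
        _ = A * (T0 * M) ^ 2 := by ring
        _ ≤ A ^ 2 * (T0 * M) ^ 2 := by
            apply mul_le_mul_of_nonneg_right _ (sq_nonneg _)
            nlinarith
        _ = _ := by ring
    have h3 : S2 ≤ C * (N : ℝ) ^ (2 * (δ / 10)) * T0 * M :=
      abs_le_of_sq_le_sq' h2 (by positivity) |>.2
    refine h3.trans ?_
    exact mul_le_mul_of_nonneg_left hM1 (by positivity)
  · intro T0 hT0 hT0T r
    have hT01 : (1 : ℝ) ≤ T0 := by exact_mod_cast hT0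
    obtain ⟨M, hM0, hM1, hM2⟩ := key T0 hT0 hT0T r
    refine hM2.trans ?_
    have : M ^ 2 ≤ ((T0 : ℝ) / N + 2) ^ 2 := pow_le_pow_left₀ hM0 hM1 2
    calc C * (N : ℝ) ^ (2 * (δ / 10)) * (M ^ 2 * T0) ≤ C * (N : ℝ) ^ (2 * (δ / 10)) * (((T0 : ℝ) / N + 2) ^ 2 * T0) := by
          apply mul_le_mul_of_nonneg_left _ (by positivity)
          exact mul_le_mul_of_nonneg_right this (by linarith)
      _ = _ := by ring

/-- one additive character with a weight of bounded variation -/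
theorem additive (q ε W : ℝ) (hq : 2 ≤ q) (hε : 0 < ε) : ∃ K : ℝ, 0 ≤ K ∧ ∀ N T : ℕ, 1 ≤ N → N ≤ T →
    T ≤ N ^ 2 → ∀ (α : ℝ) (g : ℕ → ℂ), (∀ n, ‖g n‖ ≤ 1) →
    ∑ n ∈ Ico N (2 * N), ‖g (n + 1) - g n‖ ≤ W →
    ∑ t ∈ Icc 1 T, ‖∑ n ∈ Icc N (2 * N),
      e (α * n) * g n * Complex.exp (Complex.I * (t : ℂ) * ((Real.log (n : ℝ) : ℝ) : ℂ))‖ ^ q ≤
      K * (N : ℝ) ^ ε * ((N : ℝ) ^ q + (N : ℝ) ^ (q / 2) * (T : ℝ)) := by
  obtain ⟨K0, hK0, hmom⟩ := PP_mom1 (ε / 2) (by positivity)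
  obtain ⟨K, hK1, hK⟩ := total q (ε / 2) K0 K0 hq (by positivity) hK0 hK0
  rcases le_or_gt 0 W with hW | hW
  swap
  · refine ⟨0, le_rfl, fun N T _ _ _ α g _ hgW => ?_⟩
    have : 0 ≤ ∑ n ∈ Ico N (2 * N), ‖g (n + 1) - g n‖ := sum_nonneg fun _ _ => norm_nonneg _
    linarith
  refine ⟨(1 + W) ^ q * (3 ^ q * (1 + K)), by positivity, ?_⟩
  intro N T hN hNT hTN α g hg1 hgW
  have hN1 : (1 : ℝ) ≤ N := by exact_mod_cast hN
  have hN0 : (0 : ℝ) < N := by linarith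
  obtain ⟨th, hth⟩ : ∃ th : ℝ, th = Int.fract (-α) := ⟨_, rfl⟩
  have hth0 : 0 ≤ th := by rw [hth]; exact Int.fract_nonneg _
  have hth1 : th < 1 := by rw [hth]; exact Int.fract_lt_one _
  obtain ⟨γ, hγd⟩ : ∃ γ : ℕ → ℂ, γ = fun _ => 1 := ⟨_, rfl⟩
  have hγ0 : ‖γ 0‖ ≤ 1 := by rw [hγd]; simp
  have hγ : ∑ h ∈ range 1, ‖γ h‖ ^ 2 ≤ 1 := by rw [hγd]; simp
  have hbb : ∀ n : ℕ, bb 1 th γ n = e (α * n) := by
    intro n
    unfold bb la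
    rw [hγd, range_one, sum_singleton, one_mul]
    have h1 : -((((0 : ℕ) : ℝ) + th) / ((1 : ℕ) : ℝ) * (n : ℝ)) = α * n + ((⌊-α⌋ * (n : ℤ) : ℤ) : ℝ) := by
      have h2 : th = -α - ⌊-α⌋ := by rw [hth]; rfl
      rw [h2]
      push_cast
      ring
    rw [h1, e_add, e_int, mul_one]
  have hbb1 : ∀ n, ‖bb 1 th γ n‖ ≤ 1 := fun n => by rw [hbb, e_norm]
  obtain ⟨h2, h4⟩ := hmom N T th γ hN hTN hth0 hth1 hγ0
  have hε2 : 2 * (ε / 2) = ε := by ring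
  have hB : ∀ m, N ≤ m → m ≤ 2 * N → ∑ t ∈ Icc 1 T, ‖∑ n ∈ Icc N m,
      e (α * n) * Complex.exp (Complex.I * (t : ℂ) * ((Real.log (n : ℝ) : ℝ) : ℂ))‖ ^ q ≤
      3 ^ q * (1 + K) * (N : ℝ) ^ ε * ((N : ℝ) ^ q + (N : ℝ) ^ (q / 2) * (T : ℝ)) := by
    intro m hm1 hm2
    have h1 := hK N 1 T N m th γ hN le_rfl hNT (by rw [one_pow, one_mul]; exact hTN) le_rfl hm1 hm2 hth0 hth1 hγ
      hbb1 h2 h4
    rw [hε2] at h1
    have hpt : ∀ t ∈ Icc 1 T, ‖∑ n ∈ Icc N m,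
        e (α * n) * Complex.exp (Complex.I * (t : ℂ) * ((Real.log (n : ℝ) : ℝ) : ℂ))‖ ^ q ≤
        3 ^ q * (1 + ‖DA 1 th γ N m t‖ ^ q) := by
      intro t _
      have h5 : ∑ n ∈ Icc N m, e (α * n) * Complex.exp (Complex.I * (t : ℂ) * ((Real.log (n : ℝ) : ℝ) : ℂ)) =
          e (α * N) * e ((t : ℝ) / (2 * Real.pi) * Real.log N) + DA 1 th γ N m t := by
        have h6 : Icc N m = insert N (Ioc N m) := by
          ext x
          simp only [mem_Icc, mem_insert, mem_Ioc]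
          omega
        rw [h6, sum_insert (by simp), exp_e]
        congr 1
        unfold DA
        apply sum_congr rfl
        intro n _
        rw [exp_e, hbb]
      rw [h5]
      have h7 : ‖e (α * N) * e ((t : ℝ) / (2 * Real.pi) * Real.log N) + DA 1 th γ N m t‖ ≤
          1 + ‖DA 1 th γ N m t‖ + 0 := by
        refine (norm_add_le _ _).trans ?_
        rw [norm_mul, e_norm, e_norm, mul_one]
        linarith
      refine (Real.rpow_le_rpow (norm_nonneg _) h7 (by linarith)).trans ?_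
      refine (add3 q 1 _ 0 (by linarith) (by norm_num) (norm_nonneg _) le_rfl).trans (le_of_eq ?_)
      rw [Real.one_rpow, Real.zero_rpow (by linarith), add_zero]
    refine (sum_le_sum hpt).trans ?_
    rw [← mul_sum, sum_add_distrib, sum_const, Nat.card_Icc, Nat.add_sub_cancel, nsmul_eq_mul, mul_one]
    have hA : 0 ≤ (N : ℝ) ^ q := by positivity
    have hNq : 1 ≤ (N : ℝ) ^ (q / 2) := Real.one_le_rpow hN1 (by linarith)
    have hNε : 1 ≤ (N : ℝ) ^ ε := Real.one_le_rpow hN1 hε.le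
    have hT0 : (0 : ℝ) ≤ T := Nat.cast_nonneg _
    have h8 : (T : ℝ) ≤ (N : ℝ) ^ ε * ((N : ℝ) ^ q + (N : ℝ) ^ (q / 2) * (T : ℝ)) := by
      calc (T : ℝ) = 1 * (1 * T) := by ring
        _ ≤ (N : ℝ) ^ ε * ((N : ℝ) ^ (q / 2) * T) := by
            apply mul_le_mul hNε _ (by positivity) (by positivity)
            exact mul_le_mul_of_nonneg_right hNq hT0
        _ ≤ _ := by
            apply mul_le_mul_of_nonneg_left _ (by positivity)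
            linarith
    calc 3 ^ q * ((T : ℝ) + ∑ t ∈ Icc 1 T, ‖DA 1 th γ N m t‖ ^ q)
        ≤ 3 ^ q * ((N : ℝ) ^ ε * ((N : ℝ) ^ q + (N : ℝ) ^ (q / 2) * (T : ℝ)) +
          K * (N : ℝ) ^ ε * ((N : ℝ) ^ q + (N : ℝ) ^ (q / 2) * (T : ℝ))) :=
          mul_le_mul_of_nonneg_left (add_le_add h8 h1) (by positivity)
      _ = _ := by ring
  have h9 := bv q W _ hq hW N T
    (fun n t => e (α * n) * Complex.exp (Complex.I * (t : ℂ) * ((Real.log (n : ℝ) : ℝ) : ℂ))) g hg1 hgW hB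
  have h10 : ∑ t ∈ Icc 1 T, ‖∑ n ∈ Icc N (2 * N),
      e (α * n) * g n * Complex.exp (Complex.I * (t : ℂ) * ((Real.log (n : ℝ) : ℝ) : ℂ))‖ ^ q =
      ∑ t ∈ Icc 1 T, ‖∑ n ∈ Icc N (2 * N), (fun (n t : ℕ) => e (α * n) * Complex.exp (Complex.I * (t : ℂ) *
        ((Real.log (n : ℝ) : ℝ) : ℂ))) n t * g n‖ ^ q := by
    apply sum_congr rfl
    intro t _
    congr 2
    apply sum_congr rfl
    intro n _
    dsimp only
    ring
  rw [h10]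
  refine h9.trans (le_of_eq ?_)
  ring

/-- trigonometric polynomials -/
theorem trig (q ε W : ℝ) (hq : 2 ≤ q) (hε : 0 < ε) : ∃ K : ℝ, ∀ N T : ℕ, 1 ≤ N → N ≤ T →
    T ≤ N ^ 2 → ∀ (m : ℕ) (α : ℕ → ℝ) (c g : ℕ → ℂ), ∑ j ∈ range m, ‖c j‖ ≤ 1 → (∀ n, ‖g n‖ ≤ 1) →
    ∑ n ∈ Ico N (2 * N), ‖g (n + 1) - g n‖ ≤ W →
    ∑ t ∈ Icc 1 T, ‖∑ n ∈ Icc N (2 * N), (∑ j ∈ range m, c j * Complex.exp (2 * Real.pi * Complex.I * (α j * n))) *
      g n * Complex.exp (Complex.I * (t : ℂ) * ((Real.log (n : ℝ) : ℝ) : ℂ))‖ ^ q ≤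
      K * (N : ℝ) ^ ε * ((N : ℝ) ^ q + (N : ℝ) ^ (q / 2) * (T : ℝ)) := by
  obtain ⟨K, hK0, hK⟩ := additive q ε W hq hε
  refine ⟨K, ?_⟩
  intro N T hN hNT hTN m α c g hc hg1 hgW
  have hN0 : (0 : ℝ) < N := by exact_mod_cast (by omega : 0 < N)
  have hB0 : 0 ≤ K * (N : ℝ) ^ ε * ((N : ℝ) ^ q + (N : ℝ) ^ (q / 2) * (T : ℝ)) := by positivity
  have hexp : ∀ j n : ℕ, Complex.exp (2 * Real.pi * Complex.I * (α j * n)) = e (α j * n) := by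
    intro j n
    unfold Pool.Agent.Helper523.UF.e
    congr 1
    push_cast
    ring
  have hD : ∀ t : ℕ, ∑ n ∈ Icc N (2 * N), (∑ j ∈ range m, c j * Complex.exp (2 * Real.pi * Complex.I * (α j * n))) *
      g n * Complex.exp (Complex.I * (t : ℂ) * ((Real.log (n : ℝ) : ℝ) : ℂ)) = ∑ j ∈ range m, c j *
      ∑ n ∈ Icc N (2 * N), e (α j * n) * g n * Complex.exp (Complex.I * (t : ℂ) * ((Real.log (n : ℝ) : ℝ) : ℂ)) := by
    intro t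
    have h1 : ∀ j ∈ range m, c j * ∑ n ∈ Icc N (2 * N), e (α j * n) * g n *
        Complex.exp (Complex.I * (t : ℂ) * ((Real.log (n : ℝ) : ℝ) : ℂ)) = ∑ n ∈ Icc N (2 * N),
        c j * (e (α j * n) * g n * Complex.exp (Complex.I * (t : ℂ) * ((Real.log (n : ℝ) : ℝ) : ℂ))) :=
      fun j _ => by rw [mul_sum]
    rw [sum_congr rfl h1, sum_comm]
    apply sum_congr rfl
    intro n _
    rw [sum_mul, sum_mul]
    apply sum_congr rfl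
    intro j _
    rw [hexp]
    ring
  rcases (sum_nonneg fun j _ => norm_nonneg (c j) : 0 ≤ ∑ j ∈ range m, ‖c j‖).lt_or_eq with hpos | hzero
  swap
  · have hc0 : ∀ j ∈ range m, c j = 0 := by
      intro j hj
      have := (sum_eq_zero_iff_of_nonneg fun j _ => norm_nonneg (c j)).1 hzero.symm j hj
      exact norm_eq_zero.1 this
    have : ∑ t ∈ Icc 1 T, ‖∑ n ∈ Icc N (2 * N), (∑ j ∈ range m, c j *
        Complex.exp (2 * Real.pi * Complex.I * (α j * n))) *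
        g n * Complex.exp (Complex.I * (t : ℂ) * ((Real.log (n : ℝ) : ℝ) : ℂ))‖ ^ q = 0 := by
      apply sum_eq_zero
      intro t _
      rw [hD, sum_eq_zero (fun j hj => by rw [hc0 j hj, zero_mul]), norm_zero, Real.zero_rpow (by linarith)]
    rw [this]
    exact hB0
  have hpt : ∀ t ∈ Icc 1 T, ‖∑ n ∈ Icc N (2 * N), (∑ j ∈ range m, c j *
      Complex.exp (2 * Real.pi * Complex.I * (α j * n))) *
      g n * Complex.exp (Complex.I * (t : ℂ) * ((Real.log (n : ℝ) : ℝ) : ℂ))‖ ^ q ≤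
      ∑ j ∈ range m, ‖c j‖ * ‖∑ n ∈ Icc N (2 * N),
        e (α j * n) * g n * Complex.exp (Complex.I * (t : ℂ) * ((Real.log (n : ℝ) : ℝ) : ℂ))‖ ^ q := by
    intro t _
    rw [hD]
    have h1 : ‖∑ j ∈ range m, c j * ∑ n ∈ Icc N (2 * N), e (α j * n) * g n *
        Complex.exp (Complex.I * (t : ℂ) * ((Real.log (n : ℝ) : ℝ) : ℂ))‖ ≤ ∑ j ∈ range m, ‖c j‖ *
        ‖∑ n ∈ Icc N (2 * N), e (α j * n) * g n *
          Complex.exp (Complex.I * (t : ℂ) * ((Real.log (n : ℝ) : ℝ) : ℂ))‖ := by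
      apply norm_sum_le_of_le
      intro j _
      rw [norm_mul]
    refine (Real.rpow_le_rpow (norm_nonneg _) h1 (by linarith)).trans ?_
    have h2 := power_mean (range m) (fun j => ‖c j‖) (fun j => ‖∑ n ∈ Icc N (2 * N), e (α j * n) * g n *
          Complex.exp (Complex.I * (t : ℂ) * ((Real.log (n : ℝ) : ℝ) : ℂ))‖) (fun _ _ => norm_nonneg _)
      (fun _ _ => norm_nonneg _) 1 q hc (by norm_num) (by linarith) hpos
    rw [Real.one_rpow, one_mul] at h2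
    exact h2
  calc _ ≤ ∑ t ∈ Icc 1 T, ∑ j ∈ range m, ‖c j‖ * ‖∑ n ∈ Icc N (2 * N),
        e (α j * n) * g n * Complex.exp (Complex.I * (t : ℂ) * ((Real.log (n : ℝ) : ℝ) : ℂ))‖ ^ q := sum_le_sum hpt
    _ = ∑ j ∈ range m, ‖c j‖ * ∑ t ∈ Icc 1 T, ‖∑ n ∈ Icc N (2 * N),
        e (α j * n) * g n * Complex.exp (Complex.I * (t : ℂ) * ((Real.log (n : ℝ) : ℝ) : ℂ))‖ ^ q := by
        rw [sum_comm]
        apply sum_congr rfl
        intro j _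
        rw [mul_sum]
    _ ≤ ∑ j ∈ range m, ‖c j‖ * (K * (N : ℝ) ^ ε * ((N : ℝ) ^ q + (N : ℝ) ^ (q / 2) * (T : ℝ))) := by
        apply sum_le_sum
        intro j _
        exact mul_le_mul_of_nonneg_left (hK N T hN hNT hTN (α j) g hg1 hgW) (norm_nonneg _)
    _ = (∑ j ∈ range m, ‖c j‖) * (K * (N : ℝ) ^ ε * ((N : ℝ) ^ q + (N : ℝ) ^ (q / 2) * (T : ℝ))) := by
        rw [sum_mul]
    _ ≤ _ := mul_le_of_le_one_left hB0 hc

end Pool.Agent.Helper81K1.SH
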