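import Pool.Agent.Helper81K1.SH.Four
import Pool.Agent.Helper81K1.MP.Fin
import Pool.Agent.Helper112.Arith

set_option autoImplicit false

/-!
# The moments of the dual polynomials with a shift
-/

namespace Pool.Agent.Helper81K1.SH

open Finset
open Pool.Agent.H376R2.MR (ch FK)
open Pool.Agent.Helper81K1.MP
open Pool.Agent.Helper523.UF (e e_norm e_add e_neg e_int e_nat e_zero e_nat_mul)

theorem log_T (η : ℝ) (hη : 0 < η) : ∃ C : ℝ, 1 ≤ C ∧ ∀ T0 : ℕ, 1 ≤ T0 →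
    1 + Real.log (8 * (T0 : ℝ)) ≤ C * (T0 : ℝ) ^ η := by
  refine ⟨4 + 1 / η, by have : 0 < 1 / η := by positivity
                        linarith, fun N hN => ?_⟩
  have hN1 : (1 : ℝ) ≤ N := by exact_mod_cast hN
  have hN0 : (0 : ℝ) < N := by linarith
  have h1 : Real.log (8 * (N : ℝ)) = 3 * Real.log 2 + Real.log N := by
    rw [Real.log_mul (by norm_num) (by positivity), show (8 : ℝ) = 2 ^ 3 by norm_num, Real.log_pow]
    push_cast
    ring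
  have h5 := Real.log_two_lt_d9
  have h2 : Real.log N ≤ (N : ℝ) ^ η / η := Real.log_le_rpow_div hN0.le hη
  have h3 : 1 ≤ (N : ℝ) ^ η := Real.one_le_rpow hN1 hη.le
  rw [h1]
  have h4 : (4 + 1 / η) * (N : ℝ) ^ η = 4 * (N : ℝ) ^ η + (N : ℝ) ^ η / η := by ring
  rw [h4]
  linarith

/-- one block -/
theorem blk (η : ℝ) (hη : 0 < η) : ∃ C : ℝ, 1 ≤ C ∧ ∀ (N T0 : ℕ) (X : ℝ) (c : ℕ → ℂ), 1 ≤ N → 1 ≤ T0 →
    (N : ℝ) ^ 2 ≤ 4 * T0 → (N : ℝ) ≤ X → X + ((N : ℝ) - 1) ≤ 2 * N → (∀ a, ‖c a‖ ≤ 1) →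
    ∑ t ∈ Ico T0 (2 * T0), ‖∑ a ∈ range N, c a * ch (t : ℤ) (Real.log (X + a))‖ ^ 4 ≤
      C * (T0 : ℝ) ^ (2 * η) * ((N : ℝ) ^ 2 * T0) := by
  obtain ⟨C1, hC1, h1⟩ := Pool.Agent.Helper112.divisor_bound η hη
  obtain ⟨C2, hC2, h2⟩ := log_T η hη
  have h4η : 1 ≤ (4 : ℝ) ^ η := Real.one_le_rpow (by norm_num) hη.le
  refine ⟨101728 * ((C1 + 1) * 4 ^ η) * C2, by
    have : 1 ≤ (C1 + 1) * 4 ^ η := by nlinarith
    nlinarith, ?_⟩
  intro N T0 X c hN hT0 hNT hX hXN hc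
  have hN1 : (1 : ℝ) ≤ N := by exact_mod_cast hN
  have hN0 : (0 : ℝ) < N := by linarith
  have hT01 : (1 : ℝ) ≤ T0 := by exact_mod_cast hT0
  have hT00 : (0 : ℝ) < T0 := by linarith
  have hNT2 : N ≤ 2 * T0 := by
    have h3 : (N : ℝ) ≤ 2 * T0 := by
      have : (N : ℝ) ^ 2 ≤ (2 * (T0 : ℝ)) ^ 2 := by nlinarith
      exact abs_le_of_sq_le_sq' this (by positivity) |>.2
    exact_mod_cast h3
  obtain ⟨D, hD⟩ : ∃ D : ℝ, D = (C1 + 1) * 4 ^ η * (T0 : ℝ) ^ η := ⟨_, rfl⟩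
  have hT0η : 1 ≤ (T0 : ℝ) ^ η := Real.one_le_rpow hT01 hη.le
  have hD1 : 1 ≤ D := by
    rw [hD]
    have h3 : 1 ≤ (C1 + 1) * 4 ^ η := by nlinarith
    nlinarith
  have hDm : ∀ m ∈ Icc 1 (N ^ 2), (m.divisors.card : ℝ) ≤ D := by
    intro m hm
    rw [mem_Icc] at hm
    have hm4 : (m : ℝ) ≤ 4 * T0 := by
      have : (m : ℝ) ≤ (N : ℝ) ^ 2 := by exact_mod_cast hm.2
      linarith
    calc (m.divisors.card : ℝ) ≤ C1 * (m : ℝ) ^ η := h1 m hm.1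
      _ ≤ C1 * (4 * (T0 : ℝ)) ^ η := by
          apply mul_le_mul_of_nonneg_left _ hC1.le
          exact Real.rpow_le_rpow (Nat.cast_nonneg _) hm4 hη.le
      _ = C1 * 4 ^ η * (T0 : ℝ) ^ η := by
          rw [Real.mul_rpow (by norm_num) hT00.le]
          ring
      _ ≤ D := by
          rw [hD]
          apply mul_le_mul_of_nonneg_right _ (by positivity)
          nlinarith
  obtain ⟨L, hL⟩ : ∃ L : ℝ, L = 1 + Real.log (8 * (T0 : ℝ)) := ⟨_, rfl⟩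
  have hL1 : 1 ≤ L := by
    rw [hL]
    have : 0 ≤ Real.log (8 * (T0 : ℝ)) := Real.log_nonneg (by linarith)
    linarith
  have hLb : 1 + Real.log (2 * ((N ^ 2 : ℕ) : ℝ)) ≤ L := by
    rw [hL]
    have : Real.log (2 * ((N ^ 2 : ℕ) : ℝ)) ≤ Real.log (8 * (T0 : ℝ)) := by
      apply Real.log_le_log (by positivity)
      push_cast
      linarith
    linarith
  have hf := four (2 * T0) N N X hN hNT2 hN hX hXN D hDm c hc
  have hsub : ∑ t ∈ Ico T0 (2 * T0), ‖∑ a ∈ range N, c a * ch (t : ℤ) (Real.log (X + a))‖ ^ 4 ≤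
      ∑ t ∈ FK (2 * T0), ‖∑ a ∈ range N, c a * ch t (Real.log (X + a))‖ ^ 4 := by
    refine Pool.Agent.Helper81K1.MQ.sum_inj (Ico T0 (2 * T0)) (FK (2 * T0)) (fun t : ℕ => (t : ℤ))
      (fun s : ℤ => ‖∑ a ∈ range N, c a * ch s (Real.log (X + a))‖ ^ 4) ?_ ?_ ?_
    · intro s
      positivity
    · intro t ht
      rw [mem_Ico] at ht
      unfold FK
      rw [mem_Ioo]
      push_cast
      omega
    · intro t _ t' _ h
      simpa using h
  refine hsub.trans (hf.trans ?_)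
  have e1 : 4 * ((1 : ℕ) : ℝ) * (N : ℝ) ^ 2 / N + 1 ≤ 5 * N := by
    have : 4 * ((1 : ℕ) : ℝ) * (N : ℝ) ^ 2 / N = 4 * N := by
      push_cast
      field_simp
    rw [this]
    linarith
  have e2 : 4 * ((2 * T0 : ℕ) : ℝ) + 52 * ((N : ℝ) ^ 2 / ((1 : ℕ) : ℝ) ^ 2) * (1 + Real.log (2 * ((N ^ 2 : ℕ) : ℝ))) ≤
      216 * T0 * L := by
    have h3 : 52 * ((N : ℝ) ^ 2 / ((1 : ℕ) : ℝ) ^ 2) * (1 + Real.log (2 * ((N ^ 2 : ℕ) : ℝ))) ≤ 52 * (4 * T0) * L := by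
      apply mul_le_mul _ hLb _ (by positivity)
      · push_cast
        rw [one_pow, div_one]
        linarith
      · have : 0 ≤ Real.log (2 * ((N ^ 2 : ℕ) : ℝ)) := by
          apply Real.log_nonneg
          push_cast
          nlinarith
        linarith
    push_cast at h3 ⊢
    nlinarith
  have e3 : 10816 * (N : ℝ) ^ 2 * N / ((1 : ℕ) : ℝ) ^ 2 ≤ 43264 * N * T0 := by
    push_cast
    rw [one_pow, div_one]
    nlinarith
  have e4 : 0 ≤ 4 * ((2 * T0 : ℕ) : ℝ) + 52 * ((N : ℝ) ^ 2 / ((1 : ℕ) : ℝ) ^ 2) *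
      (1 + Real.log (2 * ((N ^ 2 : ℕ) : ℝ))) := by
    have : 0 ≤ Real.log (2 * ((N ^ 2 : ℕ) : ℝ)) := by
      apply Real.log_nonneg
      push_cast
      nlinarith
    positivity
  calc 2 * (N * (2720 * N * ((2 * T0 : ℕ) : ℝ) + (4 * ((1 : ℕ) : ℝ) * (N : ℝ) ^ 2 / N + 1) *
        (2 * D * (4 * ((2 * T0 : ℕ) : ℝ) + 52 * ((N : ℝ) ^ 2 / ((1 : ℕ) : ℝ) ^ 2) *
          (1 + Real.log (2 * ((N ^ 2 : ℕ) : ℝ))))) + 10816 * (N : ℝ) ^ 2 * N / ((1 : ℕ) : ℝ) ^ 2))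
      ≤ 2 * (N * (5440 * N * T0 + (5 * N) * (2 * D * (216 * T0 * L)) + 43264 * N * T0)) := by
        apply mul_le_mul_of_nonneg_left _ (by norm_num)
        apply mul_le_mul_of_nonneg_left _ hN0.le
        have h3 : 2720 * (N : ℝ) * ((2 * T0 : ℕ) : ℝ) = 5440 * N * T0 := by push_cast; ring
        have h4 : (4 * ((1 : ℕ) : ℝ) * (N : ℝ) ^ 2 / N + 1) *
            (2 * D * (4 * ((2 * T0 : ℕ) : ℝ) + 52 * ((N : ℝ) ^ 2 / ((1 : ℕ) : ℝ) ^ 2) *
              (1 + Real.log (2 * ((N ^ 2 : ℕ) : ℝ))))) ≤ (5 * N) * (2 * D * (216 * T0 * L)) := by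
          apply mul_le_mul e1 _ (by positivity) (by positivity)
          exact mul_le_mul_of_nonneg_left e2 (by positivity)
        linarith
    _ = (N : ℝ) ^ 2 * T0 * (97408 + 4320 * (D * L)) := by ring
    _ ≤ (N : ℝ) ^ 2 * T0 * (101728 * (D * L)) := by
        apply mul_le_mul_of_nonneg_left _ (by positivity)
        have : 1 ≤ D * L := one_le_mul_of_one_le_of_one_le hD1 hL1
        linarith
    _ ≤ (N : ℝ) ^ 2 * T0 * (101728 * (((C1 + 1) * 4 ^ η * (T0 : ℝ) ^ η) * (C2 * (T0 : ℝ) ^ η))) := by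
        apply mul_le_mul_of_nonneg_left _ (by positivity)
        apply mul_le_mul_of_nonneg_left _ (by norm_num)
        apply mul_le_mul hD.le _ (by linarith) (by positivity)
        rw [hL]
        exact h2 T0 hT0
    _ = _ := by
        have e5 : (T0 : ℝ) ^ (2 * η) = (T0 : ℝ) ^ η * (T0 : ℝ) ^ η := by
          rw [← Real.rpow_add hT00]
          congr 1
          ring
        rw [e5]
        ring

/-- dyadic decomposition of a sum -/
theorem dyadic_sum (f : ℕ → ℂ) (M : ℕ) : ∑ l ∈ Icc 1 M, f l =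
    ∑ i ∈ range (Nat.log 2 M + 1), ∑ a ∈ range (2 ^ i), (if 2 ^ i + a ≤ M then f (2 ^ i + a) else 0) := by
  rw [← Finset.sum_fiberwise_of_maps_to (s := Icc 1 M) (t := range (Nat.log 2 M + 1)) (g := fun t => Nat.log 2 t)]
  · apply sum_congr rfl
    intro i _
    have h1 : (Icc 1 M).filter (fun l => Nat.log 2 l = i) = (Ico (2 ^ i) (2 ^ i + 2 ^ i)).filter (fun l => l ≤ M) := by
      ext l
      rw [mem_filter, mem_filter, mem_Icc, mem_Ico]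
      constructor
      · rintro ⟨⟨h1, h2⟩, h3⟩
        refine ⟨⟨?_, ?_⟩, h2⟩
        · rw [← h3]
          exact Nat.pow_log_le_self 2 (by omega)
        · have := Nat.lt_pow_succ_log_self (b := 2) (by norm_num) l
          rw [h3, pow_succ] at this
          omega
      · rintro ⟨⟨h1, h2⟩, h3⟩
        have h0 : 0 < 2 ^ i := by positivity
        refine ⟨⟨by omega, h3⟩, ?_⟩
        apply Nat.log_eq_of_pow_le_of_lt_pow h1
        rw [pow_succ]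
        omega
    rw [h1, sum_filter, sum_Ico_eq_sum_range, Nat.add_sub_cancel]
  · intro t ht
    rw [mem_Icc] at ht
    rw [mem_range]
    have := Nat.log_mono_right (b := 2) ht.2
    omega

/-- the fourth moment of the dual polynomials with a shift, `k = 1` -/
theorem PP4 (η : ℝ) (hη : 0 < η) : ∃ C : ℝ, 1 ≤ C ∧ ∀ (M' T0 r : ℕ) (th : ℝ) (γ : ℕ → ℂ), 1 ≤ M' → 1 ≤ T0 →
    (M' : ℝ) ≤ 2 * T0 → (M' : ℝ) ^ 2 ≤ 4 * T0 → 0 ≤ th → th < 1 → ‖γ 0‖ ≤ 1 →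
    ∑ t ∈ Ico T0 (2 * T0), ‖PP 1 th γ M' r t‖ ^ 4 ≤ C * (T0 : ℝ) ^ (6 * η) * ((M' : ℝ) ^ 2 * T0) := by
  classical
  obtain ⟨C1, hC1, h1⟩ := blk η hη
  obtain ⟨C2, hC2, h2⟩ := log_T η hη
  refine ⟨16 * C1 * C2 ^ 4, by
    have : 1 ≤ C2 ^ 4 := one_le_pow₀ hC2
    nlinarith, ?_⟩
  intro M' T0 r th γ hM' hT0 hM2 hM4 hth0 hth1 hγ
  have hT01 : (1 : ℝ) ≤ T0 := by exact_mod_cast hT0
  have hT00 : (0 : ℝ) < T0 := by linarith
  have hM1 : (1 : ℝ) ≤ M' := by exact_mod_cast hM'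
  obtain ⟨J, hJ⟩ : ∃ J : ℕ, J = Nat.log 2 M' + 1 := ⟨_, rfl⟩
  obtain ⟨c, hc⟩ : ∃ c : ℕ → ℕ → ℂ, c = fun i a => if 2 ^ i + a ≤ M' then
    γ 0 * e ((r : ℝ) * ((2 ^ i + a : ℕ) : ℝ) / (M' + 1 : ℕ)) else 0 := ⟨_, rfl⟩
  have hc1 : ∀ i a, ‖c i a‖ ≤ 1 := by
    intro i a
    rw [hc]
    dsimp only
    split_ifs
    · rw [norm_mul, e_norm, mul_one]
      exact hγ
    · rw [norm_zero]
      norm_num
  have hPP : ∀ t : ℕ, PP 1 th γ M' r t = ∑ i ∈ range J, ∑ a ∈ range (2 ^ i),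
      c i a * ch (t : ℤ) (Real.log (((2 ^ i : ℕ) : ℝ) + th + a)) := by
    intro t
    unfold PP
    rw [dyadic_sum, hJ]
    apply sum_congr rfl
    intro i _
    apply sum_congr rfl
    intro a _
    rw [hc]
    dsimp only
    split_ifs with h
    · have h3 : uu 1 th γ t (2 ^ i + a) = γ 0 * ch (t : ℤ) (Real.log (((2 ^ i : ℕ) : ℝ) + th + a)) := by
        unfold uu
        rw [Nat.mod_one]
        congr 1
        unfold Pool.Agent.Helper523.UF.e ch la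
        congr 1
        have h4 : (((2 ^ i + a : ℕ) : ℝ) + th) / ((1 : ℕ) : ℝ) = ((2 ^ i : ℕ) : ℝ) + th + a := by
          push_cast
          ring
        rw [h4]
        have h5 : 2 * Real.pi * -((t : ℝ) / (2 * Real.pi) * Real.log (((2 ^ i : ℕ) : ℝ) + th + a)) =
            -(((t : ℤ) : ℝ) * Real.log (((2 ^ i : ℕ) : ℝ) + th + a)) := by
          push_cast
          field_simp
        rw [h5]
        push_cast
        ring
      rw [h3]
      ring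
    · rw [zero_mul]
  have h2i : ∀ i ∈ range J, 2 ^ i ≤ M' := by
    intro i hi
    rw [mem_range, hJ] at hi
    exact (Nat.pow_le_pow_right (by norm_num) (by omega)).trans (Nat.pow_log_le_self 2 (by omega))
  have hpt : ∀ t ∈ Ico T0 (2 * T0), ‖PP 1 th γ M' r t‖ ^ 4 ≤ (J : ℝ) ^ 3 * ∑ i ∈ range J,
      ‖∑ a ∈ range (2 ^ i), c i a * ch (t : ℤ) (Real.log (((2 ^ i : ℕ) : ℝ) + th + a))‖ ^ 4 := by
    intro t _
    rw [hPP]
    have h3 := jensen4 (range J) (fun _ => 1)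
      (fun i => ‖∑ a ∈ range (2 ^ i), c i a * ch (t : ℤ) (Real.log (((2 ^ i : ℕ) : ℝ) + th + a))‖)
      (fun _ _ => by norm_num)
    simp only [one_mul, sum_const, card_range, nsmul_eq_mul, mul_one] at h3
    refine le_trans ?_ h3
    apply pow_le_pow_left₀ (norm_nonneg _)
    exact norm_sum_le _ _
  have hblk : ∀ i ∈ range J, ∑ t ∈ Ico T0 (2 * T0),
      ‖∑ a ∈ range (2 ^ i), c i a * ch (t : ℤ) (Real.log (((2 ^ i : ℕ) : ℝ) + th + a))‖ ^ 4 ≤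
      C1 * (T0 : ℝ) ^ (2 * η) * ((M' : ℝ) ^ 2 * T0) := by
    intro i hi
    have h3 := h2i i hi
    have h3' : ((2 ^ i : ℕ) : ℝ) ≤ M' := by exact_mod_cast h3
    have h4 : ((2 ^ i : ℕ) : ℝ) ^ 2 ≤ (M' : ℝ) ^ 2 := pow_le_pow_left₀ (Nat.cast_nonneg _) h3' 2
    have h5 := h1 (2 ^ i) T0 (((2 ^ i : ℕ) : ℝ) + th) (c i) (Nat.one_le_pow _ _ (by norm_num)) hT0 (by linarith)
      (by linarith) (by linarith) (hc1 i)
    refine h5.trans ?_
    apply mul_le_mul_of_nonneg_left _ (by positivity)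
    exact mul_le_mul_of_nonneg_right h4 hT00.le
  have hJb : (J : ℝ) ≤ 2 * (C2 * (T0 : ℝ) ^ η) := by
    have h3 : (2 : ℝ) ^ (Nat.log 2 M') ≤ 2 * T0 := by
      have h4 : ((2 ^ (Nat.log 2 M') : ℕ) : ℝ) ≤ M' := by exact_mod_cast Nat.pow_log_le_self 2 (by omega)
      push_cast at h4
      linarith
    have h5 : (Nat.log 2 M' : ℝ) * Real.log 2 ≤ Real.log 2 + Real.log T0 := by
      have := Real.log_le_log (by positivity) h3
      rw [Real.log_pow, Real.log_mul (by norm_num) (by positivity)] at this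
      exact this
    have h6 := h2 T0 hT0
    have h7 : Real.log (8 * (T0 : ℝ)) = 3 * Real.log 2 + Real.log T0 := by
      rw [Real.log_mul (by norm_num) (by positivity), show (8 : ℝ) = 2 ^ 3 by norm_num, Real.log_pow]
      push_cast
      ring
    have h8 := Real.log_two_gt_d9
    have h9 : 0 ≤ Real.log (T0 : ℝ) := Real.log_nonneg hT01
    have h10 : (0 : ℝ) ≤ Nat.log 2 M' := Nat.cast_nonneg _
    rw [hJ]
    push_cast
    rw [h7] at h6
    nlinarith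
  calc ∑ t ∈ Ico T0 (2 * T0), ‖PP 1 th γ M' r t‖ ^ 4
      ≤ ∑ t ∈ Ico T0 (2 * T0), (J : ℝ) ^ 3 * ∑ i ∈ range J,
        ‖∑ a ∈ range (2 ^ i), c i a * ch (t : ℤ) (Real.log (((2 ^ i : ℕ) : ℝ) + th + a))‖ ^ 4 := sum_le_sum hpt
    _ = (J : ℝ) ^ 3 * ∑ i ∈ range J, ∑ t ∈ Ico T0 (2 * T0),
        ‖∑ a ∈ range (2 ^ i), c i a * ch (t : ℤ) (Real.log (((2 ^ i : ℕ) : ℝ) + th + a))‖ ^ 4 := by
        rw [← mul_sum, sum_comm]
    _ ≤ (J : ℝ) ^ 3 * ∑ i ∈ range J, C1 * (T0 : ℝ) ^ (2 * η) * ((M' : ℝ) ^ 2 * T0) := by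
        apply mul_le_mul_of_nonneg_left (sum_le_sum hblk) (by positivity)
    _ = (J : ℝ) ^ 4 * (C1 * (T0 : ℝ) ^ (2 * η) * ((M' : ℝ) ^ 2 * T0)) := by
        rw [sum_const, card_range, nsmul_eq_mul]
        ring
    _ ≤ (2 * (C2 * (T0 : ℝ) ^ η)) ^ 4 * (C1 * (T0 : ℝ) ^ (2 * η) * ((M' : ℝ) ^ 2 * T0)) := by
        apply mul_le_mul_of_nonneg_right _ (by positivity)
        exact pow_le_pow_left₀ (Nat.cast_nonneg _) hJb 4
    _ = _ := by
        have e5 : (T0 : ℝ) ^ (6 * η) = ((T0 : ℝ) ^ η) ^ 4 * (T0 : ℝ) ^ (2 * η) := by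
          rw [← Real.rpow_natCast, ← Real.rpow_mul hT00.le, ← Real.rpow_add hT00]
          congr 1
          push_cast
          ring
        rw [e5]
        ring

end Pool.Agent.Helper81K1.SH
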